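import Pool.Agent.Helper22_DEN.Stmt

/-! # Module TRF of the squad DEN: transfer of Hecke functions to congruence subgroups -/

namespace Pool.Agent.DEN.H42

open Pool.Agent.DEN

section
variable {G : Type} [Group G] {A B M N' : Subgroup G} (hMA : M ≤ A)

/-- the natural map of the quotients -/
noncomputable def emap (B N' : Subgroup G) (y : M ⧸ N'.subgroupOf M) : A ⧸ B.subgroupOf A :=
  QuotientGroup.mk (Subgroup.inclusion hMA y.out)

theorem emap_mk (hNB : N' ≤ B) (m : M) :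
    emap hMA B N' (QuotientGroup.mk m) = QuotientGroup.mk (Subgroup.inclusion hMA m) := by
  unfold emap
  rw [QuotientGroup.eq]
  obtain ⟨h, hh⟩ := QuotientGroup.mk_out_eq_mul (N'.subgroupOf M) m
  rw [hh, map_mul, mul_inv_rev, mul_assoc, inv_mul_cancel, mul_one]
  apply inv_mem
  rw [Subgroup.mem_subgroupOf]
  exact hNB (Subgroup.mem_subgroupOf.1 h.2)

theorem emap_injective (hN : ∀ γ ∈ M, γ ∈ B → γ ∈ N') :
    Function.Injective (emap hMA B N') := by
  intro y y' h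
  unfold emap at h
  rw [QuotientGroup.eq, Subgroup.mem_subgroupOf] at h
  have h1 : y.out⁻¹ * y'.out ∈ N'.subgroupOf M := by
    rw [Subgroup.mem_subgroupOf]
    exact hN _ (y.out⁻¹ * y'.out).2 h
  rw [← QuotientGroup.out_eq' y, ← QuotientGroup.out_eq' y']
  exact (QuotientGroup.eq).2 h1

theorem emap_surjective (hNB : N' ≤ B) (hfac : ∀ g ∈ A, ∃ γ ∈ M, ∃ g0 ∈ B, g = γ * g0) :
    Function.Surjective (emap hMA B N') := by
  intro z
  obtain ⟨γ, hγ, g0, hg0, h⟩ := hfac _ z.out.2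
  refine ⟨QuotientGroup.mk ⟨γ, hγ⟩, ?_⟩
  rw [emap_mk hMA hNB, ← QuotientGroup.out_eq' z]
  refine (QuotientGroup.eq).2 ?_
  rw [Subgroup.mem_subgroupOf]
  have h1 : (((Subgroup.inclusion hMA ⟨γ, hγ⟩)⁻¹ * z.out : A) : G) = γ⁻¹ * (z.out : G) := rfl
  rw [h1, h, inv_mul_cancel_left]
  exact hg0

variable {κ : A → ℂ}

theorem kernel_emap (hκ : ∀ k ∈ B.subgroupOf A, ∀ g, κ (k * g) = κ g ∧ κ (g * k) = κ g)
    (x y : M ⧸ N'.subgroupOf M) :
    κ ((emap hMA B N' x).out⁻¹ * (emap hMA B N' y).out) =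
      κ (Subgroup.inclusion hMA (x.out⁻¹ * y.out)) := by
  obtain ⟨b1, h1⟩ := QuotientGroup.mk_out_eq_mul (B.subgroupOf A) (Subgroup.inclusion hMA x.out)
  obtain ⟨b2, h2⟩ := QuotientGroup.mk_out_eq_mul (B.subgroupOf A) (Subgroup.inclusion hMA y.out)
  unfold emap
  rw [h1, h2, mul_inv_rev, mul_assoc, (hκ _ (inv_mem b1.2) _).1, ← mul_assoc,
    (hκ _ b2.2 _).2, map_mul, map_inv]

theorem kernel_emap_one (hκ : ∀ k ∈ B.subgroupOf A, ∀ g, κ (k * g) = κ g ∧ κ (g * k) = κ g)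
    (y : M ⧸ N'.subgroupOf M) :
    κ (emap hMA B N' y).out = κ (Subgroup.inclusion hMA y.out) := by
  obtain ⟨b2, h2⟩ := QuotientGroup.mk_out_eq_mul (B.subgroupOf A) (Subgroup.inclusion hMA y.out)
  unfold emap
  rw [h2, (hκ _ b2.2 _).2]

theorem normSq_emap (hκ : ∀ k ∈ B.subgroupOf A, ∀ g, κ (k * g) = κ g ∧ κ (g * k) = κ g)
    (hNB : N' ≤ B) (hN : ∀ γ ∈ M, γ ∈ B → γ ∈ N')
    (hfac : ∀ g ∈ A, ∃ γ ∈ M, ∃ g0 ∈ B, g = γ * g0) :
    normSq (N'.subgroupOf M) (fun δ => κ (Subgroup.inclusion hMA δ)) =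
      normSq (B.subgroupOf A) κ := by
  unfold normSq
  refine finsum_eq_of_bijective (emap hMA B N') ⟨emap_injective hMA hN,
    emap_surjective hMA hNB hfac⟩ fun y => ?_
  rw [kernel_emap_one hMA hκ]

theorem normLE_emap (hκ : ∀ k ∈ B.subgroupOf A, ∀ g, κ (k * g) = κ g ∧ κ (g * k) = κ g)
    (hN : ∀ γ ∈ M, γ ∈ B → γ ∈ N') {τ : ℝ} (hτ : NormLE (B.subgroupOf A) κ τ) :
    NormLE (N'.subgroupOf M) (fun δ => κ (Subgroup.inclusion hMA δ)) τ := by
  classical
  intro S T φ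
  set e : (M ⧸ N'.subgroupOf M) ↪ (A ⧸ B.subgroupOf A) :=
    ⟨emap hMA B N', emap_injective hMA hN⟩ with he
  set φ' : A ⧸ B.subgroupOf A → ℂ := fun z =>
    if h : ∃ y, emap hMA B N' y = z then φ h.choose else 0 with hφ'
  have hφe : ∀ y, φ' (emap hMA B N' y) = φ y := by
    intro y
    have hex : ∃ y', emap hMA B N' y' = emap hMA B N' y := ⟨y, rfl⟩
    have h1 : hex.choose = y := emap_injective hMA hN hex.choose_spec
    simp only [hφ']
    rw [dif_pos hex, h1]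
  have h := hτ (S.map e) (T.map e) φ'
  rw [Finset.sum_map, Finset.sum_map] at h
  simp only [Finset.sum_map] at h
  have h2 : ∀ x y : M ⧸ N'.subgroupOf M, κ ((e x).out⁻¹ * (e y).out) * φ' (e y) =
      κ (Subgroup.inclusion hMA (x.out⁻¹ * y.out)) * φ y := by
    intro x y
    change κ ((emap hMA B N' x).out⁻¹ * (emap hMA B N' y).out) * φ' (emap hMA B N' y) = _
    rw [kernel_emap hMA hκ, hφe]
  simp only [h2] at h
  refine h.trans (le_of_eq ?_)
  congr 1
  refine Finset.sum_congr rfl fun y _ => ?_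
  change ‖φ' (emap hMA B N' y)‖ ^ 2 = _
  rw [hφe]

end

theorem trf (hNrm : NrmStmt) : TrfStmt := by
  intro r C hC K _ P N hP hN hPN κ R hH
  obtain ⟨_, h2, h3, h4, h5, _⟩ := hNrm r C hC K P N hP hN hPN
  have hMA : cong C K P N ≤ arith C K P := fun g hg => hg.1
  have hNB : cong C K 1 N ≤ arith C K 1 := fun g hg => hg.1
  obtain ⟨hκ, hfin, _⟩ := hH
  refine ⟨?_, ?_, ?_, ?_⟩
  · intro k hk g
    have hk' : Subgroup.inclusion hMA k ∈ (arith C K 1).subgroupOf (arith C K P) := by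
      rw [Subgroup.mem_subgroupOf]
      exact hNB (Subgroup.mem_subgroupOf.1 hk)
    exact hκ _ hk' (Subgroup.inclusion hMA g)
  · have h6 : {y : (cong C K P N) ⧸ (cong C K 1 N).subgroupOf (cong C K P N) |
        κ ⟨y.out.1, y.out.2.1⟩ ≠ 0} = emap hMA (arith C K 1) (cong C K 1 N) ⁻¹'
        {y : (arith C K P) ⧸ (arith C K 1).subgroupOf (arith C K P) | κ y.out ≠ 0} := by
      ext y
      simp only [Set.mem_setOf_eq, Set.mem_preimage]
      rw [kernel_emap_one hMA hκ]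
      exact Iff.rfl
    rw [h6]
    exact hfin.preimage ((emap_injective hMA h4).injOn)
  · exact normSq_emap hMA hκ hNB h4 h5
  · intro τ hτ
    exact normLE_emap hMA hκ h4 hτ

end Pool.Agent.DEN.H42
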